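import Pool.Agent.W886.AM.Stm0

/-!
# Majorities of runs, relative to an oracle
-/

set_option autoImplicit false

namespace Pool.Agent.W381.AM

open MeasureTheory Finset
open Pool.Agent.NPC Pool.Agent.H622R2
open Pool.Agent.H628R3.RO (randomOracle)
open Pool.Agent.H620R2.Gauge
open Pool.Agent.W900.RB Pool.Agent.W900

/-- the `i`-th part of the coins of `⟨r, z⟩`, for an algorithm which takes `p(|x|)` coins,
`z = ⟨y, x⟩` -/
noncomputable def bk (p : Polynomial ℕ) (y : ℕ × List Bool) : List Bool :=
  (List.range (p.eval (unpair (unpair y.2).2).2.length)).map (fun j =>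
    (unpair y.2).1.getD (y.1 * p.eval (unpair (unpair y.2).2).2.length + j) false)

theorem poly_bk (p : Polynomial ℕ) : Poly (bk p) := by
  have hz : Poly (fun y : (ℕ × List Bool) × ℕ => unpair y.1.2) :=
    poly_unpair.comp (Poly.snd (Poly.fst Poly.id))
  have hzz : Poly (fun y : (ℕ × List Bool) × ℕ => unpair (unpair y.1.2).2) :=
    poly_unpair.comp (Poly.snd hz)
  have hl : UPoly (fun y : (ℕ × List Bool) × ℕ => p.eval (unpair (unpair y.1.2).2).2.length) :=
    (UPoly.length (Poly.snd hzz)).eval p
  have hk : Poly (fun y : (ℕ × List Bool) × ℕ =>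
      y.1.1 * p.eval (unpair (unpair y.1.2).2).2.length + y.2) :=
    Poly.add (Poly.mul (Poly.fst (Poly.fst Poly.id)) hl.toPoly) (Poly.snd Poly.id)
  have hg : Poly (fun y : (ℕ × List Bool) × ℕ =>
      (unpair y.1.2).1.getD (y.1.1 * p.eval (unpair (unpair y.1.2).2).2.length + y.2) false) :=
    Poly.getD (Poly.fst hz) hk (NPC.Poly.const false)
  have hz' : Poly (fun y : ℕ × List Bool => unpair y.2) := poly_unpair.comp (Poly.snd Poly.id)
  have hzz' : Poly (fun y : ℕ × List Bool => unpair (unpair y.2).2) :=
    poly_unpair.comp (Poly.snd hz')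
  exact NPC.Poly.map (F := fun (y : ℕ × List Bool) j =>
    (unpair y.2).1.getD (y.1 * p.eval (unpair (unpair y.2).2).2.length + j) false)
    ((UPoly.length (Poly.snd hzz')).eval p).range hg

theorem bk_eq {p : Polynomial ℕ} {z r : List Bool} {i : ℕ}
    (hr : (i + 1) * p.eval (unpair z).2.length ≤ r.length) :
    bk p (i, pairBits r z) =
      (r.drop (i * p.eval (unpair z).2.length)).take (p.eval (unpair z).2.length) := by
  unfold bk
  simp only [unpair_pairBits]
  rw [Nat.add_mul, one_mul] at hr
  apply List.ext_getElem
  · rw [List.length_take, List.length_drop, List.length_map, List.length_range]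
    omega
  · intro j h2 h3
    simp only [List.getElem_map, List.getElem_range, List.getElem_take, List.getElem_drop]
    rw [List.length_map, List.length_range] at h2
    rw [List.getD_eq_getElem _ _ (by omega)]

theorem count_ncard (t : ℕ) (f : ℕ → Bool) :
    (((List.range t).map f).filter (fun b => b)).length = Set.ncard {i : ℕ | i < t ∧ f i = true} := by
  classical
  have h1 : {i : ℕ | i < t ∧ f i = true} = (((Finset.range t).filter fun i => f i = true :
      Finset ℕ) : Set ℕ) := by
    ext i
    simp
  rw [h1, Set.ncard_coe_finset, count_list]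
  refine card_bij (fun (i : Fin t) _ => (i : ℕ)) ?_ ?_ ?_
  · intro i hi
    rw [mem_filter] at hi ⊢
    exact ⟨Finset.mem_range.2 i.2, hi.2⟩
  · intro i _ j _ h
    exact Fin.ext h
  · intro i hi
    rw [mem_filter, Finset.mem_range] at hi
    exact ⟨⟨i, hi.1⟩, by rw [mem_filter]; exact ⟨mem_univ _, hi.2⟩, rfl⟩

open Classical in
/-- the majority of `2048` runs -/
noncomputable def Gm (V : List Bool → List Bool) (p : Polynomial ℕ) (v : List Bool) : List Bool :=
  if 1024 < Set.ncard {i : ℕ | i < 2048 ∧ V (pairBits (bk p (i, v)) (unpair v).2) = [true]}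
  then [true] else []

theorem isFP_Gm {A : Oracle} {V : List Bool → List Bool} (hV : IsFP A V) (p : Polynomial ℕ) :
    IsFP A (Gm V p) := by
  have hz : Poly (fun y : (ℕ × List Bool) × List Bool => unpair y.1.2) :=
    poly_unpair.comp (Poly.snd (Poly.fst Poly.id))
  have hW : Poly (fun y : (ℕ × List Bool) × List Bool =>
      pairBits (bk p y.1) (unpair y.1.2).2) :=
    poly_pairBits ((poly_bk p).comp (Poly.fst Poly.id)) (Poly.snd hz)
  have h2 : Poly (fun y : List Bool × List Bool => y.2) := Poly.snd Poly.id
  have hH : Poly (fun y : List Bool × List Bool =>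
      if 1024 < (y.2.filter (fun b => b)).length then [true] else []) := by
    refine Poly.ite (Poly.decide_lt (NPC.Poly.const _) (Poly.length ?_)) (NPC.Poly.const _)
      (NPC.Poly.const _)
    exact Poly.filter (p := fun (_ : List Bool × List Bool) (b : Bool) => b) h2 (Poly.snd Poly.id)
  have hQ : Poly (fun _ : ℕ × List Bool => ([] : List (List Bool))) := NPC.Poly.const _
  have hF := IsFP.votes hV (Polynomial.C 2048) hQ hW hH
  refine (congrArg (IsFP A) (funext fun v => ?_)).mp hF
  dsimp only
  rw [Polynomial.eval_C, count_ncard]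
  unfold Gm
  have e : {i : ℕ | i < 2048 ∧ decide (V (pairBits (bk p (i, v)) (unpair v).2) = [true]) = true} =
      {i : ℕ | i < 2048 ∧ V (pairBits (bk p (i, v)) (unpair v).2) = [true]} := by
    ext i
    simp
  rw [e]

theorem Gm_iff {V : List Bool → List Bool} {p : Polynomial ℕ} {r z : List Bool}
    (hr : 2048 * p.eval (unpair z).2.length ≤ r.length) :
    Gm V p (pairBits r z) = [true] ↔ 1024 < Set.ncard {i : ℕ | i < 2048 ∧
      V (pairBits ((r.drop (i * p.eval (unpair z).2.length)).take
        (p.eval (unpair z).2.length)) z) = [true]} := by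
  unfold Gm
  simp only [unpair_pairBits]
  have e : {i : ℕ | i < 2048 ∧ V (pairBits (bk p (i, pairBits r z)) z) = [true]} =
      {i : ℕ | i < 2048 ∧ V (pairBits ((r.drop (i * p.eval (unpair z).2.length)).take
        (p.eval (unpair z).2.length)) z) = [true]} := by
    ext i
    simp only [Set.mem_ofPred_eq]
    refine and_congr_right fun hi => ?_
    rw [bk_eq]
    refine le_trans ?_ hr
    exact Nat.mul_le_mul_right _ hi
  rw [e]
  by_cases h : 1024 < Set.ncard {i : ℕ | i < 2048 ∧
      V (pairBits ((r.drop (i * p.eval (unpair z).2.length)).take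
        (p.eval (unpair z).2.length)) z) = [true]}
  · rw [if_pos h]
    simp [h]
  · rw [if_neg h]
    simp [h]

/-- the decision by a vote, with a table for the short inputs -/
noncomputable def HM (n₂ : ℕ) (tbl : List (List Bool)) (y : List Bool × List Bool) : List Bool :=
  if (unpair y.1).2.length < n₂ then
    (if tbl.any (fun z => decide ((unpair y.1).2 = z)) = true then [true] else [])
  else if y.2.length < 2 * (y.2.filter (fun b => b)).length then [true] else []

theorem poly_HM (n₂ : ℕ) (tbl : List (List Bool)) : Poly (HM n₂ tbl) := by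
  have h1 : Poly (fun y : List Bool × List Bool => (unpair y.1).2) :=
    Poly.snd (poly_unpair.comp (Poly.fst Poly.id))
  have h2 : Poly (fun y : List Bool × List Bool => y.2) := Poly.snd Poly.id
  unfold HM
  refine Poly.ite (Poly.decide_lt (Poly.length h1) (NPC.Poly.const _)) ?_ ?_
  · refine Poly.ite (Poly.decide_bool ?_) (NPC.Poly.const _) (NPC.Poly.const _)
    exact Poly.any (p := fun (y : List Bool × List Bool) (z : List Bool) =>
      decide ((unpair y.1).2 = z))
      (NPC.Poly.const tbl) (Poly.decide_eq (h1.comp (Poly.fst Poly.id)) (Poly.snd Poly.id))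
  · refine Poly.ite (Poly.decide_lt (Poly.length h2) (Poly.mul (NPC.Poly.const 2)
      (Poly.length ?_))) (NPC.Poly.const _) (NPC.Poly.const _)
    exact Poly.filter (p := fun (_ : List Bool × List Bool) (b : Bool) => b) h2 (Poly.snd Poly.id)

open Classical in
/-- number of the accepting samples -/
noncomputable def cnt (A : Oracle) (V : List Bool → List Bool) (q P τ : Polynomial ℕ)
    (z : List Bool) : ℕ :=
  (univ.filter fun i : Fin (4 * τ.eval z.length) =>
    V (pairBits (sample A (q.eval z.length) z.length (P.eval z.length) i) z) = [true]).card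

/-- A language is in `NP` if the votes are right for all long inputs. -/
theorem isNP_of_votes {A : Oracle} {L : Set (List Bool)} {V : List Bool → List Bool}
    (hV : IsFP A V) (p q P τ : Polynomial ℕ) (n₂ : ℕ)
    (h1 : ∀ x : List Bool, n₂ ≤ x.length → x ∈ L → ∃ y : List Bool, y.length ≤ p.eval x.length ∧
      4 * τ.eval (pairBits y x).length < 2 * cnt A V q P τ (pairBits y x))
    (h0 : ∀ x : List Bool, n₂ ≤ x.length → x ∉ L → ∀ y : List Bool, y.length ≤ p.eval x.length →
      ¬ 4 * τ.eval (pairBits y x).length < 2 * cnt A V q P τ (pairBits y x)) : IsNP A L := by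
  classical
  obtain ⟨tbl, htbl⟩ : ∃ tbl : List (List Bool), ∀ x, x ∈ tbl ↔ x ∈ L ∧ x.length < n₂ := by
    have hf : {x : List Bool | x ∈ L ∧ x.length < n₂}.Finite :=
      (CH.finite_short n₂).subset fun x hx => hx.2.le
    refine ⟨hf.toFinset.toList, fun x => ?_⟩
    rw [mem_toList, Set.Finite.mem_toFinset]
    exact Iff.rfl
  have hW : Poly (fun y : (ℕ × List Bool) × List Bool => pairBits y.2 y.1.2) :=
    poly_pairBits (Poly.snd Poly.id) (Poly.snd (Poly.fst Poly.id))
  have hF := IsFP.votes hV (Polynomial.C 4 * τ) (poly_Qs q P) hW (poly_HM n₂ tbl)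
  have key : ∀ y x : List Bool,
      (HM n₂ tbl (pairBits y x, (List.range ((Polynomial.C 4 * τ).eval (pairBits y x).length)).map
      (fun i => decide (V (pairBits ((Qs q P (i, pairBits y x)).map A) (pairBits y x)) =
        [true]))) = [true] ↔
      if x.length < n₂ then x ∈ L else
        4 * τ.eval (pairBits y x).length < 2 * cnt A V q P τ (pairBits y x)) := by
    intro y x
    have hlist : (List.range ((Polynomial.C 4 * τ).eval (pairBits y x).length)).map
        (fun i => decide (V (pairBits ((Qs q P (i, pairBits y x)).map A) (pairBits y x)) =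
          [true])) =
        (List.range (4 * τ.eval (pairBits y x).length)).map (fun i => decide (V (pairBits
          (sample A (q.eval (pairBits y x).length) (pairBits y x).length
            (P.eval (pairBits y x).length) i) (pairBits y x)) = [true])) := by
      have e : (Polynomial.C 4 * τ).eval (pairBits y x).length =
          4 * τ.eval (pairBits y x).length := by simp
      rw [e]
      apply List.map_congr_left
      intro i _
      rw [map_Qs]
    rw [hlist]
    unfold HM
    simp only [unpair_pairBits]
    by_cases hx : x.length < n₂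
    · rw [if_pos hx, if_pos hx]
      have h1 : tbl.any (fun z => decide (x = z)) = true ↔ x ∈ L := by
        rw [List.any_eq_true]
        constructor
        · rintro ⟨z, hz, h2⟩
          rw [decide_eq_true_eq] at h2
          subst h2
          exact ((htbl x).1 hz).1
        · intro h2
          exact ⟨x, (htbl x).2 ⟨h2, hx⟩, by simp⟩
      by_cases h2 : x ∈ L
      · rw [if_pos (h1.2 h2)]
        simp [h2]
      · rw [if_neg (fun h3 => h2 (h1.1 h3))]
        simp [h2]
    · rw [if_neg hx, if_neg hx]
      rw [List.length_map, List.length_range, count_list]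
      have h3 : (univ.filter fun i : Fin (4 * τ.eval (pairBits y x).length) => decide (V (pairBits
          (sample A (q.eval (pairBits y x).length) (pairBits y x).length
            (P.eval (pairBits y x).length) i) (pairBits y x)) = [true]) = true).card =
          cnt A V q P τ (pairBits y x) := by
        unfold cnt
        congr 1
        ext i
        simp
      rw [h3]
      by_cases h4 : 4 * τ.eval (pairBits y x).length < 2 * cnt A V q P τ (pairBits y x)
      · rw [if_pos h4]
        simp [h4]
      · rw [if_neg h4]
        simp [h4]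
  refine ⟨_, p, hF, fun x => ?_⟩
  have key' : ∀ y : List Bool, _ := fun y => key y x
  constructor
  · intro hx
    by_cases hn : x.length < n₂
    · refine ⟨[], Nat.zero_le _, ?_⟩
      have h5 := key [] x
      rw [if_pos hn] at h5
      exact h5.2 hx
    · obtain ⟨y, hy, h5⟩ := h1 x (not_lt.1 hn) hx
      refine ⟨y, hy, ?_⟩
      have h6 := key y x
      rw [if_neg hn] at h6
      exact h6.2 h5
  · rintro ⟨y, hy, h5⟩
    have h6 := (key y x).1 h5
    by_cases hn : x.length < n₂
    · rw [if_pos hn] at h6
      exact h6
    · rw [if_neg hn] at h6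
      by_contra hx
      exact h0 x (not_lt.1 hn) hx y hy h6

end Pool.Agent.W381.AM
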