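import Pool.Agent.W381.AM.MANPa

/-!
# Relative to a random oracle with polynomially many changes, `MA = NP`
-/

set_option autoImplicit false

namespace Pool.Agent.W381.AM

open MeasureTheory Finset
open Pool.Agent.NPC Pool.Agent.H622R2
open Pool.Agent.H628R3.RO (randomOracle)
open Pool.Agent.H620R2.Gauge
open Pool.Agent.W900.RB Pool.Agent.W900 Pool.Agent.W895.MA Pool.Agent.W886.AM

/-- a majority of the runs accepts -/
def Acc (M : Alg) (p : Polynomial ℕ) (A : Oracle) (r z : List Bool) : Prop :=
  1024 < Set.ncard {i : ℕ | i < 2048 ∧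
    M.out A (pairBits ((r.drop (i * p.eval (unpair z).2.length)).take
      (p.eval (unpair z).2.length)) z) = some [true]}

theorem out_loc (M : Alg) (p : Polynomial ℕ) (n : ℕ) (A A' : Oracle) (r x : List Bool)
    (hx : x.length = n) (hr : r.length ≤ p.eval n)
    (h : ∀ y : List Bool, y.length ≤ (qPol M p).eval n → A y = A' y) :
    M.out A (pairBits r x) = M.out A' (pairBits r x) := by
  apply (SP.out_local M).choose_spec
  intro y hy
  apply h
  refine hy.trans ?_
  unfold qPol
  rw [A2.length_pairBits, hx, Polynomial.eval_add, Polynomial.eval_comp]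
  refine le_trans (eval_mono _ ?_) (Nat.le_add_right _ _)
  simp only [Polynomial.eval_add, Polynomial.eval_mul, Polynomial.eval_C, Polynomial.eval_X]
  omega

theorem Acc_loc (M : Alg) (p : Polynomial ℕ) (n : ℕ) (A A' : Oracle) (r x : List Bool)
    (hx : x.length = n)
    (h : ∀ y : List Bool, y.length ≤ (qPol M p).eval n → A y = A' y) :
    Acc M p A r x ↔ Acc M p A' r x := by
  unfold Acc
  have e : ∀ i : ℕ, M.out A (pairBits ((r.drop (i * p.eval (unpair x).2.length)).take
      (p.eval (unpair x).2.length)) x) = M.out A' (pairBits ((r.drop (i *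
        p.eval (unpair x).2.length)).take (p.eval (unpair x).2.length)) x) := by
    intro i
    refine out_loc M p n A A' _ x hx ?_ h
    rw [List.length_take]
    refine (min_le_left _ _).trans (eval_mono p ?_)
    rw [← hx]
    exact length_unpair_snd x
  simp only [e]

open Classical in
theorem card_cond (h : S_AMP) (M : Alg) (p : Polynomial ℕ) (A : Oracle) (z : List Bool) (b : Prop)
    (hb : 3 * Nat.card {w : Fin (p.eval (unpair z).2.length) → Bool //
      ¬ (M.out A (pairBits (List.ofFn w) z) = some [true] ↔ b)} ≤
        2 ^ (p.eval (unpair z).2.length)) :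
    256 * Nat.card {r : Fin ((Polynomial.C 2048 * p).eval z.length) → Bool //
      ¬ (Acc M p A (List.ofFn r) z ↔ b)} ≤ 2 ^ ((Polynomial.C 2048 * p).eval z.length) := by
  have eP : (Polynomial.C 2048 * p).eval z.length = 2048 * p.eval z.length := by simp
  rw [eP]
  set m := p.eval (unpair z).2.length with hm
  have hmle : m ≤ p.eval z.length := eval_mono p (length_unpair_snd z)
  have h1 := h m (fun w => M.out A (pairBits w z) = some [true]) b hb
  have hle : 2048 * m ≤ 2048 * p.eval z.length := Nat.mul_le_mul_left _ hmle
  have h2 := card_prefix (fun r => ¬ (1024 < Set.ncard {i : ℕ | i < 2048 ∧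
    M.out A (pairBits ((r.drop (i * m)).take m) z) = some [true]} ↔ b)) hle
  have e1 : ∀ r : List Bool, (Acc M p A r z ↔ 1024 < Set.ncard {i : ℕ | i < 2048 ∧
      M.out A (pairBits (((r.take (2048 * m)).drop (i * m)).take m) z) = some [true]}) := by
    intro r
    unfold Acc
    rw [← hm]
    have e2 : {i : ℕ | i < 2048 ∧ M.out A (pairBits ((r.drop (i * m)).take m) z) = some [true]} =
        {i : ℕ | i < 2048 ∧
          M.out A (pairBits (((r.take (2048 * m)).drop (i * m)).take m) z) = some [true]} := by
      ext i
      simp only [Set.mem_ofPred_eq]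
      refine and_congr_right fun hi => ?_
      have h3 : (i + 1) * m ≤ 2048 * m := Nat.mul_le_mul_right _ hi
      rw [Nat.add_mul, one_mul] at h3
      have e3 : ((r.take (2048 * m)).drop (i * m)).take m = (r.drop (i * m)).take m := by
        rw [List.drop_take, List.take_take, min_eq_left (by omega)]
      rw [e3]
    rw [e2]
  have e4 : Nat.card {r : Fin (2048 * p.eval z.length) → Bool //
      ¬ (Acc M p A (List.ofFn r) z ↔ b)} = Nat.card {w : Fin (2048 * p.eval z.length) → Bool //
        ¬ (1024 < Set.ncard {i : ℕ | i < 2048 ∧ M.out A (pairBits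
          ((((List.ofFn w).take (2048 * m)).drop (i * m)).take m) z) = some [true]} ↔ b)} := by
    apply Nat.card_congr
    apply Equiv.subtypeEquivRight
    intro r
    rw [e1]
  rw [e4]
  rw [h2, ← mul_assoc]
  calc _ ≤ 2 ^ (2048 * m) * 2 ^ (2048 * p.eval z.length - 2048 * m) :=
        Nat.mul_le_mul_right _ h1
    _ = 2 ^ (2048 * p.eval z.length) := by
        rw [← pow_add]
        congr 1
        omega

open Classical in
theorem prob_cond {V : List Bool → List Bool} {M : Alg} {A : Oracle}
    (hM : ∀ z, M.out A z = some (V z)) (m : ℕ) (z : List Bool) :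
    (2 / 3 ≤ accPr V m z → 3 * Nat.card {w : Fin m → Bool //
      ¬ (M.out A (pairBits (List.ofFn w) z) = some [true] ↔ True)} ≤ 2 ^ m) ∧
    (accPr V m z ≤ 1 / 3 → 3 * Nat.card {w : Fin m → Bool //
      ¬ (M.out A (pairBits (List.ofFn w) z) = some [true] ↔ False)} ≤ 2 ^ m) := by
  have h3 : ∀ z, (M.out A z = some [true] ↔ V z = [true]) := by
    intro z
    rw [hM z, Option.some.injEq]
  simp only [h3]
  have h5 := card_filter_add_card_filter_not (s := (univ : Finset (Fin m → Bool)))
    (fun w => V (pairBits (List.ofFn w) z) = [true])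
  rw [card_univ, Fintype.card_fun, Fintype.card_bool, Fintype.card_fin] at h5
  have h7 : (0 : ℝ) < 2 ^ m := by positivity
  unfold accPr
  rw [Nat.card_eq_fintype_card, Nat.card_eq_fintype_card, Nat.card_eq_fintype_card,
    Fintype.card_subtype, Fintype.card_subtype, Fintype.card_subtype]
  have e1 : (univ.filter fun w : Fin m → Bool => ¬ (V (pairBits (List.ofFn w) z) = [true] ↔ True)) =
      univ.filter fun w : Fin m → Bool => ¬ V (pairBits (List.ofFn w) z) = [true] := by
    ext w
    simp
  have e2 : (univ.filter fun w : Fin m → Bool => ¬ (V (pairBits (List.ofFn w) z) = [true] ↔ False)) =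
      univ.filter fun w : Fin m → Bool => V (pairBits (List.ofFn w) z) = [true] := by
    ext w
    simp
  rw [e1, e2]
  constructor
  · intro h
    rw [le_div_iff₀ h7] at h
    have h8 : (2 * 2 ^ m : ℝ) ≤ 3 * ((univ.filter fun w : Fin m → Bool =>
        V (pairBits (List.ofFn w) z) = [true]).card : ℝ) := by linarith
    have h9 : 2 * 2 ^ m ≤ 3 * (univ.filter fun w : Fin m → Bool =>
        V (pairBits (List.ofFn w) z) = [true]).card := by exact_mod_cast h8
    omega
  · intro h
    rw [div_le_iff₀ h7] at h
    have h8 : 3 * ((univ.filter fun w : Fin m → Bool =>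
        V (pairBits (List.ofFn w) z) = [true]).card : ℝ) ≤ 2 ^ m := by linarith
    exact_mod_cast h8

open Classical in
theorem task (h : S_AMP) : S_MANP := by
  unfold S_MANP
  have hc := CC.poly_countable
  have hae : ∀ θ : Alg × Polynomial ℕ × ℕ, ∀ᵐ O ∂randomOracle, ∀ A : Oracle,
      PClose θ.2.2 O A → ∀ᶠ n : ℕ in Filter.atTop,
      ∀ z : List Bool, z.length = n → ∀ b : Prop,
        256 * Nat.card {r : Fin ((Polynomial.C 2048 * θ.2.1).eval n) → Bool //
          ¬ (Acc θ.1 θ.2.1 A (List.ofFn r) z ↔ b)} ≤
            2 ^ (Polynomial.C 2048 * θ.2.1).eval n →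
        (univ.filter fun i : Fin (4 * (tau (qPol θ.1 θ.2.1) θ.2.2).eval n) =>
          ¬ (Acc θ.1 θ.2.1 A (sample A ((qPol θ.1 θ.2.1).eval n) n
            ((Polynomial.C 2048 * θ.2.1).eval n) i) z ↔ b)).card <
              2 * (tau (qPol θ.1 θ.2.1) θ.2.2).eval n := by
    rintro ⟨M, p, c⟩
    have h0 := ae_samples (Acc M p) (qPol M p) (Polynomial.C 2048 * p) c (qPol_ge M p) (by
        intro n A A' r x hx _ h
        exact Acc_loc M p n A A' r x hx h)
    filter_upwards [h0] with O hO A hA
    filter_upwards [hO A hA] with n hn
    intro z hz b hb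
    convert hn.2 z hz b hb
  filter_upwards [ae_all_iff.2 hae] with O hO A hA L hL
  obtain ⟨c, hA⟩ := hA
  obtain ⟨V, p, ⟨M, hM⟩, hL⟩ := hL
  obtain ⟨n₂, hn₂⟩ := Filter.eventually_atTop.1 (hO (M, p, c) A hA)
  have hcnt : ∀ (z : List Bool) (b : Prop), n₂ ≤ z.length →
      3 * Nat.card {w : Fin (p.eval (unpair z).2.length) → Bool //
        ¬ (M.out A (pairBits (List.ofFn w) z) = some [true] ↔ b)} ≤
          2 ^ (p.eval (unpair z).2.length) →
      (univ.filter fun i : Fin (4 * (tau (qPol M p) c).eval z.length) =>
        ¬ (Gm V p (pairBits (sample A ((qPol M p).eval z.length) z.length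
          ((Polynomial.C 2048 * p).eval z.length) i) z) = [true] ↔ b)).card <
            2 * (tau (qPol M p) c).eval z.length := by
    intro z b hz hb
    have h1 := hn₂ z.length hz z rfl b (card_cond h M p A z b hb)
    refine lt_of_le_of_lt (le_of_eq ?_) h1
    congr 1
    ext i
    rw [mem_filter, mem_filter]
    refine and_congr_right fun _ => not_congr ?_
    have h2 : 2048 * p.eval (unpair z).2.length ≤ (sample A ((qPol M p).eval z.length) z.length
        ((Polynomial.C 2048 * p).eval z.length) i).length := by
      unfold sample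
      rw [List.length_ofFn]
      have eP : (Polynomial.C 2048 * p).eval z.length = 2048 * p.eval z.length := by simp
      rw [eP]
      exact Nat.mul_le_mul_left _ (eval_mono p (length_unpair_snd z))
    rw [Gm_iff h2]
    have h3 : ∀ z, (M.out A z = some [true] ↔ V z = [true]) := by
      intro z
      rw [hM z, Option.some.injEq]
    unfold Acc
    simp only [h3]
  have hlen : ∀ y x : List Bool, x.length ≤ (pairBits y x).length := by
    intro y x
    rw [A2.length_pairBits]
    omega
  refine isNP_of_votes (V := Gm V p) (isFP_Gm ⟨M, hM⟩ p) p (qPol M p) (Polynomial.C 2048 * p)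
    (tau (qPol M p) c) n₂ ?_ ?_
  · intro x hx hxL
    obtain ⟨y, hy, h1⟩ := (hL x).1 hxL
    refine ⟨y, hy, ?_⟩
    have h2 := (prob_cond hM (p.eval x.length) (pairBits y x)).1 h1
    have h3 := hcnt (pairBits y x) True (hx.trans (hlen y x)) (by
      have e : (unpair (pairBits y x)).2 = x := by rw [unpair_pairBits]
      rw [e]
      exact h2)
    have h4 := card_filter_add_card_filter_not
      (s := (univ : Finset (Fin (4 * (tau (qPol M p) c).eval (pairBits y x).length))))
      (fun i => Gm V p (pairBits (sample A ((qPol M p).eval (pairBits y x).length)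
        (pairBits y x).length ((Polynomial.C 2048 * p).eval (pairBits y x).length) i)
          (pairBits y x)) = [true])
    rw [card_univ, Fintype.card_fin] at h4
    simp only [iff_true] at h3
    unfold cnt
    have h5 : (univ.filter fun i : Fin (4 * (tau (qPol M p) c).eval (pairBits y x).length) =>
      Gm V p (pairBits (sample A ((qPol M p).eval (pairBits y x).length)
        (pairBits y x).length ((Polynomial.C 2048 * p).eval (pairBits y x).length) i)
          (pairBits y x)) = [true]).card +
        (univ.filter fun i : Fin (4 * (tau (qPol M p) c).eval (pairBits y x).length) =>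
      ¬ Gm V p (pairBits (sample A ((qPol M p).eval (pairBits y x).length)
        (pairBits y x).length ((Polynomial.C 2048 * p).eval (pairBits y x).length) i)
          (pairBits y x)) = [true]).card = 4 * (tau (qPol M p) c).eval (pairBits y x).length := by
      convert h4
    have h6 : (univ.filter fun i : Fin (4 * (tau (qPol M p) c).eval (pairBits y x).length) =>
      ¬ Gm V p (pairBits (sample A ((qPol M p).eval (pairBits y x).length)
        (pairBits y x).length ((Polynomial.C 2048 * p).eval (pairBits y x).length) i)
          (pairBits y x)) = [true]).card < 2 * (tau (qPol M p) c).eval (pairBits y x).length := by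
      convert h3
    omega
  · intro x hx hxL y hy
    have h1 := (hL x).2 hxL y hy
    have h2 := (prob_cond hM (p.eval x.length) (pairBits y x)).2 h1
    have h3 := hcnt (pairBits y x) False (hx.trans (hlen y x)) (by
      have e : (unpair (pairBits y x)).2 = x := by rw [unpair_pairBits]
      rw [e]
      exact h2)
    simp only [iff_false, not_not] at h3
    unfold cnt
    have h6 : (univ.filter fun i : Fin (4 * (tau (qPol M p) c).eval (pairBits y x).length) =>
      Gm V p (pairBits (sample A ((qPol M p).eval (pairBits y x).length)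
        (pairBits y x).length ((Polynomial.C 2048 * p).eval (pairBits y x).length) i)
          (pairBits y x)) = [true]).card < 2 * (tau (qPol M p) c).eval (pairBits y x).length := by
      convert h3
    omega

end Pool.Agent.W381.AM
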